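import Pool.Agent.H77.KM.Chain

set_option autoImplicit false

open Module

namespace Pool.Agent.Results.MP_d770f7_co.Triangle

/-- An `s`-colouring of `PG(n-1, K)`: a map from the points of the projective space of `K^n`
to `s` colours. -/
abbrev Colouring (K : Type) [Field K] (n s : ℕ) : Type :=
  Projectivization K (Fin n → K) → Fin s

/-- The `s`-colouring `c` of `PG(n-1, K)` contains the `s₀`-colouring `c₀` of `PG(k-1, K)`
(where `s₀ ≤ s`): some injective linear map carries `c₀` to `c`. -/
def Contains {K : Type} [Field K] {k n s₀ s : ℕ} (h : s₀ ≤ s) (c : Colouring K n s)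
    (c₀ : Colouring K k s₀) : Prop :=
  ∃ (φ : (Fin k → K) →ₗ[K] (Fin n → K)) (hφ : Function.Injective φ),
    ∀ x, Fin.castLE h (c₀ x) = c (Projectivization.map φ hφ x)

/-- A linear subspace is homogeneous if some colour is taken by none of its points. -/
def Homogeneous {K : Type} [Field K] {n s : ℕ} (c : Colouring K n s)
    (U : Submodule K (Fin n → K)) : Prop :=
  ∃ i : Fin s, ∀ x : Projectivization K (Fin n → K), x.submodule ≤ U → c x ≠ i

/-- The set of nonzero vectors of a given colour. -/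
def cls {n s : ℕ} (c : Colouring (ZMod 2) n s) (i : Fin s) : Set (Fin n → ZMod 2) :=
  {v | ∃ hv : v ≠ 0, c (Projectivization.mk (ZMod 2) v hv) = i}

lemma zero_notMem_cls {n s : ℕ} (c : Colouring (ZMod 2) n s) (i : Fin s) :
    (0 : Fin n → ZMod 2) ∉ cls c i := fun ⟨h, _⟩ => h rfl

lemma homogeneous_of_missed {n s : ℕ} (c : Colouring (ZMod 2) n s) (i : Fin s)
    (U : Submodule (ZMod 2) (Fin n → ZMod 2)) (h : ∀ u ∈ U, u ∉ cls c i) :
    Homogeneous c U := by
  refine ⟨i, fun x hx => ?_⟩
  induction x using Projectivization.ind with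
  | h v hv =>
    intro hc
    rw [Projectivization.submodule_mk, Submodule.span_singleton_le_iff_mem] at hx
    exact h v hx ⟨hv, hc⟩

/-- The linear map from the plane determined by the images of the two basis vectors. -/
noncomputable def plane {n : ℕ} (x y : Fin n → ZMod 2) :
    (Fin 2 → ZMod 2) →ₗ[ZMod 2] (Fin n → ZMod 2) :=
  (LinearMap.proj 0).smulRight x + (LinearMap.proj 1).smulRight y

lemma plane_apply {n : ℕ} (x y : Fin n → ZMod 2) (a : Fin 2 → ZMod 2) :
    plane x y a = a 0 • x + a 1 • y := rfl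

lemma vec_cases (v : Fin 2 → ZMod 2) :
    v = 0 ∨ v = ![1, 0] ∨ v = ![0, 1] ∨ v = ![1, 1] := by
  revert v; decide

/-- The three colour classes attached to a colouring of the line satisfy the sum condition. -/
lemma sum_condition {n s₀ s : ℕ} (h : s₀ ≤ s) (c : Colouring (ZMod 2) n s)
    (c₀ : Colouring (ZMod 2) 2 s₀) (hfree : ¬ Contains h c c₀)
    (h1 : (![1, 0] : Fin 2 → ZMod 2) ≠ 0) (h2 : (![0, 1] : Fin 2 → ZMod 2) ≠ 0)
    (h3 : (![1, 1] : Fin 2 → ZMod 2) ≠ 0) :
    ∀ x ∈ cls c (Fin.castLE h (c₀ (Projectivization.mk (ZMod 2) _ h1))),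
      ∀ y ∈ cls c (Fin.castLE h (c₀ (Projectivization.mk (ZMod 2) _ h2))),
        x + y ∉ cls c (Fin.castLE h (c₀ (Projectivization.mk (ZMod 2) _ h3))) := by
  rintro x ⟨hx, hcx⟩ y ⟨hy, hcy⟩ ⟨hxy, hcxy⟩
  apply hfree
  have e1 : plane x y ![1, 0] = x := by simp [plane_apply]
  have e2 : plane x y ![0, 1] = y := by simp [plane_apply]
  have e3 : plane x y ![1, 1] = x + y := by simp [plane_apply]
  have hinj : Function.Injective (plane x y) := by
    rw [injective_iff_map_eq_zero]
    intro v hv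
    rcases vec_cases v with rfl | rfl | rfl | rfl
    · rfl
    · rw [e1] at hv; exact absurd hv hx
    · rw [e2] at hv; exact absurd hv hy
    · rw [e3] at hv; exact absurd hv hxy
  refine ⟨plane x y, hinj, fun z => ?_⟩
  induction z using Projectivization.ind with
  | h v hv =>
    rw [Projectivization.map_mk]
    rcases vec_cases v with rfl | rfl | rfl | rfl
    · exact absurd rfl hv
    · rw [← hcx]; congr 2; exact e1.symm
    · rw [← hcy]; congr 2; exact e2.symm
    · rw [← hcxy]; congr 2; exact e3.symm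

/-- Every colouring of `PG(1,2)` has the multicoloured Erdos-Hajnal property: for all
`s₀ ≤ s` with `s ≥ 2`, every `s₀`-colouring `c₀` of `PG(1,2)`, every `n` and every `c₀`-free
`s`-colouring `c` of `PG(n-1,2)`, some homogeneous subspace has dimension at least
`n^(1/10) / 200`. -/
theorem result (s₀ s : ℕ) (h : s₀ ≤ s) (hs : 2 ≤ s) (c₀ : Colouring (ZMod 2) 2 s₀) (n : ℕ)
    (c : Colouring (ZMod 2) n s) (hfree : ¬ Contains h c c₀) :
    ∃ U : Submodule (ZMod 2) (Fin n → ZMod 2), Homogeneous c U ∧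
      (1 / 200 : ℝ) * (n : ℝ) ^ (1 / 10 : ℝ) ≤ (finrank (ZMod 2) U : ℝ) := by
  have h1 : (![1, 0] : Fin 2 → ZMod 2) ≠ 0 := by decide
  have h2 : (![0, 1] : Fin 2 → ZMod 2) ≠ 0 := by decide
  have h3 : (![1, 1] : Fin 2 → ZMod 2) ≠ 0 := by decide
  have hsum := sum_condition h c c₀ hfree h1 h2 h3
  set y : ℝ := (n : ℝ) ^ (1 / 10 : ℝ) with hy
  have hn0 : (0 : ℝ) ≤ n := Nat.cast_nonneg n
  have hy0 : 0 ≤ y := Real.rpow_nonneg hn0 _
  have hy10 : y ^ 10 = n := by
    rw [hy, ← Real.rpow_natCast, ← Real.rpow_mul hn0]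
    norm_num
  rcases Nat.eq_zero_or_pos n with hn | hn
  · -- the zero-dimensional space
    subst hn
    refine ⟨⊥, homogeneous_of_missed c ⟨0, by omega⟩ ⊥ (fun u hu => ?_), ?_⟩
    · rw [Submodule.mem_bot] at hu
      rw [hu]; exact zero_notMem_cls c _
    · have : y = 0 := by
        have h0 : y ^ 10 = 0 := by rw [hy10]; norm_num
        exact pow_eq_zero_iff (by norm_num) |>.mp h0
      rw [this, mul_zero]
      exact Nat.cast_nonneg _
  rcases lt_or_ge y 76 with hlt | hge
  · -- a one-dimensional subspace suffices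
    have hv : (fun _ => 1 : Fin n → ZMod 2) ≠ 0 := by
      intro h0
      have := congrFun h0 ⟨0, hn⟩
      simp at this
    refine ⟨Submodule.span (ZMod 2) {fun _ => 1}, ?_, ?_⟩
    · have hex : ∃ i : Fin s, i ≠ c (Projectivization.mk (ZMod 2) _ hv) := by
        have : Nontrivial (Fin s) := Fin.nontrivial_iff_two_le.mpr hs
        exact exists_ne _
      obtain ⟨i, hi⟩ := hex
      refine homogeneous_of_missed c i _ (fun u hu => ?_)
      rintro ⟨hu0, hcu⟩
      rw [Submodule.mem_span_singleton] at hu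
      obtain ⟨t, rfl⟩ := hu
      have ht : ∀ t : ZMod 2, t = 0 ∨ t = 1 := by decide
      rcases ht t with rfl | rfl
      · exact hu0 (zero_smul _ _)
      · apply hi
        rw [← hcu]
        congr 2
    · rw [finrank_span_singleton hv]
      push_cast
      linarith
  · -- the main case
    set d : ℕ := ⌊y / 76⌋₊ with hd
    have hd1 : 1 ≤ d := by
      rw [hd, Nat.one_le_floor_iff]
      linarith
    have hdle : (d : ℝ) ≤ y / 76 := Nat.floor_le (by positivity)
    have hdlt : y / 76 < d + 1 := Nat.lt_floor_add_one _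
    have hbound : 6 * 10 ^ 18 * d ^ 10 ≤ finrank (ZMod 2) (Fin n → ZMod 2) := by
      rw [Module.finrank_fin_fun]
      have hr : (6 * 10 ^ 18 * d ^ 10 : ℝ) ≤ n := by
        calc (6 * 10 ^ 18 * d ^ 10 : ℝ) ≤ 76 ^ 10 * d ^ 10 :=
              mul_le_mul_of_nonneg_right (by norm_num) (by positivity)
          _ = (76 * d) ^ 10 := by rw [mul_pow]
          _ ≤ y ^ 10 := pow_le_pow_left₀ (by positivity) (by linarith) 10
          _ = n := hy10
      exact_mod_cast hr
    obtain ⟨U, hU, hcase⟩ := Pool.Agent.H77.KM.three_sets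
      (cls c (Fin.castLE h (c₀ (Projectivization.mk (ZMod 2) _ h1))))
      (cls c (Fin.castLE h (c₀ (Projectivization.mk (ZMod 2) _ h2))))
      (cls c (Fin.castLE h (c₀ (Projectivization.mk (ZMod 2) _ h3))))
      (zero_notMem_cls c _) (zero_notMem_cls c _) (zero_notMem_cls c _) hsum hd1 hbound
    refine ⟨U, ?_, ?_⟩
    · rcases hcase with hc | hc | hc
      · exact homogeneous_of_missed c _ U hc
      · exact homogeneous_of_missed c _ U hc
      · exact homogeneous_of_missed c _ U hc
    · rw [hU]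
      have hd1' : (1 : ℝ) ≤ d := by exact_mod_cast hd1
      linarith

end Pool.Agent.Results.MP_d770f7_co.Triangle
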